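import Pool.Agent.Lib_helper16.OCN.YcJT

/-!
# MP_aeb124_co: the number game, short windows with money (block S)
-/

set_option autoImplicit false

namespace Pool.Agent.OCN.YC

variable {P : Par} {σ σ' : St} {I : ℕ} {v : Vd}

theorem S_Psi (P : Par) (o ra : ℕ) (v : Vd) : Psi P o ra v = Psi P o 0 v - 8 * (ra : ℤ) := by
  unfold Psi pQ
  push_cast
  ring

theorem S_Vee (P : Par) (o ra : ℕ) (v : Vd) : Vee P o ra v = Vee P o 0 v - 8 * (ra : ℤ) := by
  unfold Vee pQ
  push_cast
  ring

theorem S_Pee (P : Par) (o ra : ℕ) (v : Vd) : Pee P o ra v = Pee P o 0 v - 8 * (ra : ℤ) := by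
  unfold Pee pQ
  push_cast
  ring

/-- short window -/
theorem block_S (hZ : HZ P) (N : ℕ) (hC : HC P N) : HS P N := by
  rintro ⟨o, a, r, u, μ, ν, cb, β⟩ I v k h hN
  by_cases hM : μ = v.E
  · exact hZ _ _ (toZ_S h hM)
  have hsn : Sn P o u μ β v := h.sn
  have hμ := hsn.hμ
  have hoQ := hsn.ho
  have hcb : cb = 0 := h.cb
  subst hcb
  have hν : ν ≤ 1 := h.ν
  have hI : I ≤ o + 1 := h.hI
  have hkb : Kb P r a k := h.kb
  obtain ⟨r1, hrk, hkc⟩ := hkb
  have hw : v.w < r := h.w
  have hwin : (ν = 1 ∧ r * a + r ≤ o + I + 1 ∧ v.X = 0 ∧ v.c ≤ P.f + v.m + 2) ∨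
    (r * a + r + v.E + r + k + 10 ≤ o + I + 1 ∧ r * a + r + v.c + k + 10 ≤ o + I + 1 ∧
      v.X ≤ v.c + 1 ∧ v.c ≤ P.f + v.m + 3) := h.win
  have hps : T4 P o + 8 * ((r : ℤ) - 1) ≤ Psi P o (r * a) v + 8 * I + al P.f v := h.ps
  have hpv : v.md = true → T4 P o + nd v (v.c + P.K + 20) + 8 * ((r : ℤ) - 1) ≤
    Vee P o (r * a) v + 8 * I + al P.f v := h.pv
  have hpp : 1 ≤ μ ∨ v.E = 0 →
    TP P o v + 8 * ((r : ℤ) - 1) ≤ Pee P o (r * a) v + 8 * I := h.pp
  have hr1 : (1 : ℤ) ≤ r := by exact_mod_cast r1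
  rw [S_Psi] at hps
  rw [S_Vee] at hpv
  rw [S_Pee] at hpp
  by_cases hcl : r * a ≤ I
  · -- the window is closed
    have h1 := pays_close o a r u μ ν 0 0 0 β
    have hIr : ((I - r * a : ℕ) : ℤ) = (I : ℤ) - (r * a : ℕ) := by rw [Nat.cast_sub hcl]
    obtain ⟨σ'', c, h2, h3, h4⟩ := hC ⟨o, 0, 0, u, μ, 0, 0, β⟩ (I - r * a) v
      { sn := hsn
        a := rfl
        hI := by show I - r * a ≤ o + 1; omega
        y := by omega
        yi := by
          have h5 : v.c - (P.f + v.m) ≤ 3 := by omega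
          have h6 : (v.c + 1) * (v.c - (P.f + v.m)) ≤ (v.c + 1) * 3 :=
            Nat.mul_le_mul_left _ h5
          have h7 : v.X ≤ v.c + 1 := by omega
          omega
        ps := by
          show T4 P o ≤ Psi P o 0 v + 8 * ((I - r * a : ℕ) : ℤ) + al P.f v
          rw [hIr]
          linarith
        pv := fun hm => by
          show T4 P o + nd v (v.c + P.K + 20) ≤
            Vee P o 0 v + 8 * ((I - r * a : ℕ) : ℤ) + al P.f v
          rw [hIr]
          have := hpv hm
          linarith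
        pp := fun hm => by
          show TP P o v ≤ Pee P o 0 v + 8 * ((I - r * a : ℕ) : ℤ)
          rw [hIr]
          have := hpp hm
          linarith } hN
    exact ⟨σ'', r * a + c, h1.trans h2, by omega, h4⟩
  · -- the window stays open
    rw [not_le] at hcl
    obtain ⟨a', c, ha', hc, hac, hz, hp⟩ := pays_window o a r u μ ν 0 I β r1
    have ha1 : a' ≠ 0 := by
      rintro rfl
      omega
    have hcr : I < c + r := hz.resolve_left ha1
    have hra' : r * a' ≤ o := by omega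
    have hk : kc P.Q P.R0 r a' ≤ k := hkc a' ha' (by omega)
    have hczr : (I : ℤ) + 1 ≤ c + r := by exact_mod_cast hcr
    have hacz : ((r * a : ℕ) : ℤ) = (r * a' : ℕ) + (c : ℕ) := by rw [hac, Nat.cast_add]
    refine ⟨_, c, hp, hc, Or.inl (Or.inr (Or.inr (Or.inr (Or.inl ⟨v, ?_⟩))))⟩
    exact
      { sn := hsn
        M := by show μ + 1 ≤ v.E; omega
        a := by show 1 ≤ a'; omega
        r := r1
        cb := rfl
        ν := hν
        kr := by show r + kc P.Q P.R0 r a' ≤ kap P.Q P.R0; omega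
        w := hw
        win := by
          show (ν = 1 ∧ r * a' ≤ o ∧ v.X = 0 ∧ v.c ≤ P.f + v.m + 2) ∨
            (r * a' + v.E + r + kc P.Q P.R0 r a' + 10 ≤ o ∧
              r * a' + v.c + kc P.Q P.R0 r a' + 10 ≤ o ∧ v.X ≤ v.c + 1 ∧ v.c ≤ P.f + v.m + 3)
          omega
        ps := by
          show T4 P o ≤ Psi P o (r * a') v + al P.f v
          rw [S_Psi]
          linarith
        pv := fun hm => by
          show T4 P o + nd v (v.c + P.K + 20) ≤ Vee P o (r * a') v + al P.f v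
          rw [S_Vee]
          have := hpv hm
          linarith
        pp := fun hm => by
          show TP P o v ≤ Pee P o (r * a') v
          rw [S_Pee]
          have := hpp (Or.inl hm)
          linarith }

end Pool.Agent.OCN.YC
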