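import Pool.Agent.Lib_helper16.OCN.YcJ_All

/-!
# MP_aeb124_co: the number game, attacks on short windows (block A)
-/

set_option autoImplicit false

namespace Pool.Agent.OCN.YC

variable {P : Par} {σ σ' : St} {I : ℕ} {v : Vd}

theorem A4_al (f : ℕ) (v : Vd) : 0 ≤ al f v ∧ al f v ≤ 8 * (v.c : ℤ) + 64 := by
  have h1 : (0 : ℤ) ≤ v.c := Int.natCast_nonneg _
  have h2 : (0 : ℤ) ≤ v.m := Int.natCast_nonneg _
  have h3 : (0 : ℤ) ≤ f := Int.natCast_nonneg _
  have h4 : min (max 0 ((v.c : ℤ) - v.m)) (f : ℤ) ≤ v.c :=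
    (min_le_left _ _).trans (max_le h1 (by linarith))
  have h5 : 0 ≤ min (max 0 ((v.c : ℤ) - v.m)) (f : ℤ) := le_min (le_max_left _ _) h3
  unfold al
  split_ifs
  · exact ⟨le_rfl, by linarith⟩
  · exact ⟨by linarith, by linarith⟩

theorem A4_nd_mono (v : Vd) {x y : ℤ} (h : x ≤ y) : nd v x ≤ nd v y := by
  unfold nd
  have h1 : max 0 (x - ((v.n : ℤ) * v.d + v.p)) ≤ max 0 (y - ((v.n : ℤ) * v.d + v.p)) :=
    max_le_max le_rfl (by linarith)
  linarith

theorem A4_nd_h (v : Vd) (x : ℤ) : nd { v with n := v.n + 1 } x ≤ nd v x := by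
  unfold nd
  have h0 : (0 : ℤ) ≤ v.d := Int.natCast_nonneg _
  have h1 : max 0 (x - (((v.n + 1 : ℕ) : ℤ) * v.d + v.p)) ≤
      max 0 (x - ((v.n : ℤ) * v.d + v.p)) := by
    refine max_le_max le_rfl ?_
    push_cast
    linarith
  exact mul_le_mul_of_nonneg_left h1 (by norm_num)

theorem A4_Psi (P : Par) (o ra : ℕ) (v : Vd) : Psi P o ra v = Psi P o 0 v - 8 * (ra : ℤ) := by
  unfold Psi pQ
  push_cast
  ring

theorem A4_Vee (P : Par) (o ra : ℕ) (v : Vd) : Vee P o ra v = Vee P o 0 v - 8 * (ra : ℤ) := by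
  unfold Vee pQ
  push_cast
  ring

theorem A4_Pee (P : Par) (o ra : ℕ) (v : Vd) : Pee P o ra v = Pee P o 0 v - 8 * (ra : ℤ) := by
  unfold Pee pQ
  push_cast
  ring

/-- the money closes the window -/
theorem A4_close {o a r u μ ν cb I : ℕ} {β : Multiset ℕ} {v : Vd} (hsn : Sn P o u μ β v)
    (hI : I ≤ o + 1) (hra : r * a ≤ I) (hX : v.X ≤ 2 * v.c + 1) (hc : v.c ≤ P.f + v.m + 4)
    (ps : T4 P o ≤ Psi P o (r * a) v + 8 * I + al P.f v)
    (pv : v.md = true → T4 P o + nd v (v.c + P.K + 20) ≤ Vee P o (r * a) v + 8 * I + al P.f v)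
    (pp : 1 ≤ μ ∨ v.E = 0 → TP P o v ≤ Pee P o (r * a) v + 8 * I) :
    Good P ⟨o, a, r, u, μ, ν, cb, β⟩ I := by
  have h1 := pays_close o a r u μ ν cb 0 0 β
  have hIr : ((I - r * a : ℕ) : ℤ) = (I : ℤ) - (r * a : ℕ) := by rw [Nat.cast_sub hra]
  rw [A4_Psi] at ps
  rw [A4_Vee] at pv
  rw [A4_Pee] at pp
  obtain ⟨σ'', c, h2, h3, h4⟩ := gJC (P := P) (σ := ⟨o, 0, 0, u, μ, 0, 0, β⟩) (I := I - r * a)
    (v := v)
    { sn := hsn
      a := rfl
      hI := by show I - r * a ≤ o + 1; omega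
      y := by omega
      yi := by
        have h5 : v.c - (P.f + v.m) ≤ 4 := by omega
        have h6 : (v.c + 1) * (v.c - (P.f + v.m)) ≤ (v.c + 1) * 4 := Nat.mul_le_mul_left _ h5
        omega
      ps := by
        show T4 P o ≤ Psi P o 0 v + 8 * ((I - r * a : ℕ) : ℤ) + al P.f v
        rw [hIr]
        linarith
      pv := fun hm => by
        show T4 P o + nd v (v.c + P.K + 20) ≤ Vee P o 0 v + 8 * ((I - r * a : ℕ) : ℤ) + al P.f v
        rw [hIr]
        have := pv hm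
        linarith
      pp := fun hm => by
        show TP P o v ≤ Pee P o 0 v + 8 * ((I - r * a : ℕ) : ℤ)
        rw [hIr]
        have := pp hm
        linarith }
  exact ⟨σ'', r * a + c, h1.trans h2, by omega, h4⟩

/-- a position with money, after an attack on a short window -/
theorem A4_good {o a r u μ ν I k : ℕ} {β : Multiset ℕ} {v : Vd} (hsn : Sn P o u μ β v)
    (hν : ν ≤ 1) (hI : I ≤ o + 1) (hkb : Kb P r a k) (hw : v.w < r)
    (win : (ν = 1 ∧ r * a + r ≤ o + I + 1 ∧ v.X = 0 ∧ v.c ≤ P.f + v.m + 2) ∨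
      (r * a + r + v.E + r + k + 10 ≤ o + I + 1 ∧ r * a + r + v.c + k + 10 ≤ o + I + 1 ∧
        v.X ≤ v.c + 1 ∧ v.c ≤ P.f + v.m + 3) ∨
      (r * a ≤ I ∧ v.X ≤ 2 * v.c + 1 ∧ v.c ≤ P.f + v.m + 4))
    (ps : T4 P o + 8 * ((r : ℤ) - 1) ≤ Psi P o (r * a) v + 8 * I + al P.f v)
    (pv : v.md = true → T4 P o + nd v (v.c + P.K + 20) + 8 * ((r : ℤ) - 1) ≤
      Vee P o (r * a) v + 8 * I + al P.f v)
    (pp : 1 ≤ μ ∨ v.E = 0 → TP P o v + 8 * ((r : ℤ) - 1) ≤ Pee P o (r * a) v + 8 * I) :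
    Good P ⟨o, a, r, u, μ, ν, 0, β⟩ I := by
  have r1 : (1 : ℤ) ≤ r := by exact_mod_cast hkb.1
  rcases win with h | h | h
  · exact gJS (k := k)
      { sn := hsn, cb := rfl, ν := hν, hI := hI, kb := hkb, w := hw, win := Or.inl h
        ps := ps, pv := pv, pp := pp }
  · exact gJS (k := k)
      { sn := hsn, cb := rfl, ν := hν, hI := hI, kb := hkb, w := hw, win := Or.inr h
        ps := ps, pv := pv, pp := pp }
  · refine A4_close hsn hI h.1 h.2.1 h.2.2 (by linarith) (fun hm => ?_) (fun hm => ?_)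
    · have := pv hm
      linarith
    · have := pp hm
      linarith

/-- the data of a short window at rest -/
theorem A4_bar {o a r u μ ν cb : ℕ} {β : Multiset ℕ} (h : SH P ⟨o, a, r, u, μ, ν, cb, β⟩ v) :
    2 * v.c + 12 * P.K ≤ o ∧ 2 * v.E + 12 * P.K ≤ o ∧ 12 * P.K ≤ o := by
  have h1 : T4 P o ≤ Psi P o (r * a) v + al P.f v := h.ps
  have h2 : (ν = 1 ∧ r * a ≤ o ∧ v.X = 0 ∧ v.c ≤ P.f + v.m + 2) ∨
    (r * a + v.E + r + kc P.Q P.R0 r a + 10 ≤ o ∧
      r * a + v.c + kc P.Q P.R0 r a + 10 ≤ o ∧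
      v.X ≤ v.c + 1 ∧ v.c ≤ P.f + v.m + 3) := h.win
  have h3 := (A4_al P.f v).2
  have h4 : (0 : ℤ) ≤ P.K := Int.natCast_nonneg _
  exact bar (ra := r * a) h.sn (by omega) (by linarith)

theorem A4_pp {o a r u μ ν cb : ℕ} {β : Multiset ℕ} (h : SH P ⟨o, a, r, u, μ, ν, cb, β⟩ v) :
    TP P o v ≤ Pee P o (r * a) v := by
  have hsn : Sn P o u μ β v := h.sn
  have h1 : T4 P o ≤ Psi P o (r * a) v + al P.f v := h.ps
  have h2 : (ν = 1 ∧ r * a ≤ o ∧ v.X = 0 ∧ v.c ≤ P.f + v.m + 2) ∨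
    (r * a + v.E + r + kc P.Q P.R0 r a + 10 ≤ o ∧
      r * a + v.c + kc P.Q P.R0 r a + 10 ≤ o ∧
      v.X ≤ v.c + 1 ∧ v.c ≤ P.f + v.m + 3) := h.win
  have h3 := (A4_al P.f v).2
  have h4 : (0 : ℤ) ≤ P.K := Int.natCast_nonneg _
  rcases Nat.eq_zero_or_pos μ with rfl | hμ
  · have h5 := hsn.ho
    have h6 := psip (ra := r * a) hsn (by omega) (by omega) (by omega) (by linarith)
    have h7 : (0 : ℤ) ≤ o := Int.natCast_nonneg _
    linarith
  · exact h.pp hμ

theorem ok_SH (h : SH P σ v) : Ok P.W σ := by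
  obtain ⟨o, a, r, u, μ, ν, cb, β⟩ := σ
  obtain ⟨hb1, hb2, hb3⟩ := A4_bar h
  have hsn : Sn P o u μ β v := h.sn
  have hK := P.hK
  have hE := hsn.hE
  have ha : 1 ≤ a := h.a
  have hkr : r + kc P.Q P.R0 r a ≤ kap P.Q P.R0 := h.kr
  have hcb : cb = 0 := h.cb
  have hwin : (ν = 1 ∧ r * a ≤ o ∧ v.X = 0 ∧ v.c ≤ P.f + v.m + 2) ∨
    (r * a + v.E + r + kc P.Q P.R0 r a + 10 ≤ o ∧
      r * a + v.c + kc P.Q P.R0 r a + 10 ≤ o ∧
      v.X ≤ v.c + 1 ∧ v.c ≤ P.f + v.m + 3) := h.win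
  have hβ : ∀ j ∈ β, j ≤ v.c := by
    obtain ⟨τ, γ, _, h1, _⟩ := hsn.hR
    exact h1
  exact
    { n0 := fun h7 => absurd (show a = 0 from h7) (by omega)
      o1 := by show 1 ≤ o; omega
      eR := by show P.W - u + 1 ≤ o; omega
      eA := fun _ => by show P.W + r - u + 1 ≤ o; omega
      f1 := fun j hj => by
        have := hβ j hj
        show j + 1 ≤ o
        omega
      w1 := by show r * a ≤ o; omega
      w2 := by
        show 1 ≤ ν ∨ ∀ j ∈ β, r * a + j + 1 ≤ o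
        rcases hwin with h1 | h1
        · exact Or.inl (by omega)
        · right
          intro j hj
          have := hβ j hj
          omega
      w3 := fun _ h7 => absurd (show 1 ≤ cb from h7) (by omega) }

/-- the attack of a start of a short window -/
theorem A4_ws {o a r u μ ν k : ℕ} {β : Multiset ℕ}
    (h : SH P ⟨o + 1, a + 1, r, u, μ, ν, 0, β⟩ v) (hsn : Sn P (o + 1) u μ β v)
    (hM : μ + 1 ≤ v.E) (hpp : TP P (o + 1) v ≤ Pee P (o + 1) (r * (a + 1)) v)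
    (hps : T4 P (o + 1) ≤ Psi P (o + 1) (r * (a + 1)) v + al P.f v)
    (hpv : v.md = true → T4 P (o + 1) + nd v (v.c + P.K + 20) ≤
      Vee P (o + 1) (r * (a + 1)) v + al P.f v)
    (hk : k = kc P.Q P.R0 r (a + 1)) (hk1 : 1 ≤ k) (hkr : r + k ≤ kap P.Q P.R0)
    (hwin : (ν = 1 ∧ r * (a + 1) ≤ o + 1 ∧ v.X = 0 ∧ v.c ≤ P.f + v.m + 2) ∨
      (r * (a + 1) + v.E + r + k + 10 ≤ o + 1 ∧ r * (a + 1) + v.c + k + 10 ≤ o + 1 ∧
        v.X ≤ v.c + 1 ∧ v.c ≤ P.f + v.m + 3)) (hw : v.w < r) (hν : ν ≤ 1) :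
    Good P ⟨o, a, r + 1, u + 1, μ, ν, 0, β⟩ (a + ν) := by
  have hK := P.hK
  have hR := P.hR
  have hE := hsn.hE
  have hoQ := hsn.ho
  have hr1 : 1 ≤ r := h.r
  have e1 : r * (a + 1) = r * a + r := by ring
  have e2 : (r + 1) * a = r * a + a := by ring
  have e3 : a ≤ r * a := Nat.le_mul_of_pos_left a hr1
  obtain ⟨p1, p2, p3, p4⟩ := st_ws_pot hsn hM (a := a) (r := r) (ν := ν) hw
  have hkK : (r : ℤ) + 11 ≤ P.K := by
    have : r + 11 ≤ P.K := by omega
    exact_mod_cast this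
  have hK0 : (0 : ℤ) ≤ P.K := Int.natCast_nonneg _
  rw [T4_succ] at hps hpv
  refine A4_good (k := k - 1) (st_ws hsn hM (by omega)) hν (by omega) ?_ (by simp only; omega) ?_
    ?_ (fun hm => ?_) (fun _ => ?_)
  · refine ⟨Nat.le_add_left _ _, by omega, fun a1 h1 h2 => ?_⟩
    have := kc_step (Q := P.Q) (R0 := P.R0) (r := r) (a := a) (a' := a1) (by omega) h2 h1
    omega
  · simp only
    omega
  · show T4 P o + 8 * (((r + 1 : ℕ) : ℤ) - 1) ≤
      Psi P o ((r + 1) * a) { v with E := v.E - 1, w := v.w + 1 } + 8 * ((a + ν : ℕ) : ℤ) +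
        al P.f { v with E := v.E - 1, w := v.w + 1 }
    push_cast at p1 ⊢
    linarith
  · show T4 P o + nd v (v.c + P.K + 20) + 8 * (((r + 1 : ℕ) : ℤ) - 1) ≤
      Vee P o ((r + 1) * a) { v with E := v.E - 1, w := v.w + 1 } + 8 * ((a + ν : ℕ) : ℤ) +
        al P.f { v with E := v.E - 1, w := v.w + 1 }
    have := hpv hm
    push_cast at p2 ⊢
    linarith
  · push_cast at p3 ⊢
    linarith

theorem att_SH (h : SH P σ v) (ha : Att P.W σ σ' I) : Good P σ' I := by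
  obtain ⟨o', a', r, u, μ, ν, cb, β⟩ := σ
  obtain ⟨hb1, hb2, hb3⟩ := A4_bar h
  have hpp := A4_pp h
  have hsn : Sn P o' u μ β v := h.sn
  have hM : μ + 1 ≤ v.E := h.M
  have hK := P.hK
  have hE := hsn.hE
  have hoQ := hsn.ho
  have ha1 : 1 ≤ a' := h.a
  have hr1 : 1 ≤ r := h.r
  have hν : ν ≤ 1 := h.ν
  have hkr : r + kc P.Q P.R0 r a' ≤ kap P.Q P.R0 := h.kr
  have hcb : cb = 0 := h.cb
  have hw : v.w < r := h.w
  have hwin : (ν = 1 ∧ r * a' ≤ o' ∧ v.X = 0 ∧ v.c ≤ P.f + v.m + 2) ∨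
    (r * a' + v.E + r + kc P.Q P.R0 r a' + 10 ≤ o' ∧
      r * a' + v.c + kc P.Q P.R0 r a' + 10 ≤ o' ∧
      v.X ≤ v.c + 1 ∧ v.c ≤ P.f + v.m + 3) := h.win
  have hps : T4 P o' ≤ Psi P o' (r * a') v + al P.f v := h.ps
  have hpv : v.md = true → T4 P o' + nd v (v.c + P.K + 20) ≤ Vee P o' (r * a') v + al P.f v :=
    h.pv
  have hβ : ∀ j ∈ β, j ≤ v.c := by
    obtain ⟨τ, γ, _, h1, _⟩ := hsn.hR
    exact h1
  have hk1 : 1 ≤ kc P.Q P.R0 r a' := kc_pos ha1
  have hR := P.hR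
  have hkK : (r : ℤ) + 11 ≤ P.K := by
    have : r + 11 ≤ P.K := by omega
    exact_mod_cast this
  have hK52 : (52 : ℤ) ≤ P.K := by
    have h1 : P.R0 + 1 ≤ kap P.Q P.R0 := Nat.succ_le_succ (Nat.le_add_right _ _)
    have : 52 ≤ P.K := by omega
    exact_mod_cast this
  subst hcb
  obtain ⟨k, hk⟩ : ∃ k, k = kc P.Q P.R0 r a' := ⟨_, rfl⟩
  rw [← hk] at hkr hk1 hwin
  have hkb : ∀ a ≤ a', Kb P r a k := by
    intro a hle
    refine ⟨hr1, hkr, fun a1 h1 _ => ?_⟩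
    rw [hk]
    exact kc_mono (h1.trans hle)
  cases ha with
  | lR o _ _ _ _ _ _ _ hao =>
    have hpot := st_L_pot (P := P) (v := v) (o := o) (ra := r * a') (ra' := r * a')
      (I := o - (P.W - u)) (by omega)
    rw [T4_succ] at hps hpv
    rw [TP_succ] at hpp
    refine A4_good (st_L hsn) hν (by omega) (hkb a' le_rfl) hw (by omega) ?_ (fun hm => ?_)
      (fun _ => ?_)
    · linarith [hpot.1]
    · linarith [hpot.2.1, hpv hm]
    · linarith [hpot.2.2]
  | lA o a _ _ _ _ _ _ =>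
    have e : r * (a + 1) = r * a + r := by ring
    have hpot := st_L_pot (P := P) (v := v) (o := o) (ra := r * (a + 1)) (ra' := r * a)
      (I := o - (P.W + r - u)) (by omega)
    rw [T4_succ] at hps hpv
    rw [TP_succ] at hpp
    refine A4_good (st_L hsn) hν (by omega) (hkb a (Nat.le_succ a)) hw (by omega) ?_ (fun hm => ?_)
      (fun _ => ?_)
    · linarith [hpot.1]
    · linarith [hpot.2.1, hpv hm]
    · linarith [hpot.2.2]
  | hR o _ _ _ _ _ _ _ hao =>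
    have hpot := st_h_pot hsn (ra := r * a') (ra' := r * a') (I := o + 1) (by omega)
    have hn := A4_nd_h v (v.c + P.K + 20)
    rw [T4_succ] at hps hpv
    rw [TP_succ] at hpp
    refine A4_good (st_h hsn) hν (by omega) (hkb a' le_rfl) hw (by simp only; omega) ?_
      (fun hm => ?_) (fun _ => ?_)
    · show T4 P o + 8 * ((r : ℤ) - 1) ≤ Psi P o (r * a') { v with n := v.n + 1 } +
        8 * ((o + 1 : ℕ) : ℤ) + al P.f v
      linarith [hpot.1]
    · show T4 P o + nd { v with n := v.n + 1 } (v.c + P.K + 20) + 8 * ((r : ℤ) - 1) ≤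
        Vee P o (r * a') { v with n := v.n + 1 } + 8 * ((o + 1 : ℕ) : ℤ) + al P.f v
      linarith [hpot.2.1 hm, hpv hm]
    · show TP P o v + 8 * ((r : ℤ) - 1) ≤ Pee P o (r * a') { v with n := v.n + 1 } +
        8 * ((o + 1 : ℕ) : ℤ)
      linarith [hpot.2.2]
  | hA o a _ _ _ _ _ _ =>
    have e : r * (a + 1) = r * a + r := by ring
    have hpot := st_h_pot hsn (ra := r * (a + 1)) (ra' := r * a) (I := o + 1) (by omega)
    have hn := A4_nd_h v (v.c + P.K + 20)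
    rw [T4_succ] at hps hpv
    rw [TP_succ] at hpp
    refine A4_good (st_h hsn) hν (by omega) (hkb a (Nat.le_succ a)) hw (by simp only; omega) ?_
      (fun hm => ?_) (fun _ => ?_)
    · show T4 P o + 8 * ((r : ℤ) - 1) ≤ Psi P o (r * a) { v with n := v.n + 1 } +
        8 * ((o + 1 : ℕ) : ℤ) + al P.f v
      linarith [hpot.1]
    · show T4 P o + nd { v with n := v.n + 1 } (v.c + P.K + 20) + 8 * ((r : ℤ) - 1) ≤
        Vee P o (r * a) { v with n := v.n + 1 } + 8 * ((o + 1 : ℕ) : ℤ) + al P.f v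
      linarith [hpot.2.1 hm, hpv hm]
    · show TP P o v + 8 * ((r : ℤ) - 1) ≤ Pee P o (r * a) { v with n := v.n + 1 } +
        8 * ((o + 1 : ℕ) : ℤ)
      linarith [hpot.2.2]
  | b0 o _ _ _ _ _ j γ => exact absurd ha1 (Nat.not_succ_le_zero 0)
  | bA o a _ _ _ _ _ j γ =>
    have e : r * (a + 1) = r * a + r := by ring
    have hj := hβ j (Multiset.mem_cons_self j γ)
    obtain ⟨v', g1, g2, g3, g4, g5, g6, g7, g8, g9, g10, g11⟩ := st_T hsn hM (by omega)
    obtain ⟨p1, _, p3, p4⟩ := g11 (r * (a + 1)) (r * a) (o - j) (by omega)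
    have hn := fun hm => g10 (v.c + P.K + 20) hm
    rw [T4_succ] at hps hpv
    refine A4_good g1 hν (by omega) (hkb a (Nat.le_succ a)) (by omega) (by omega) ?_
      (fun hm => ?_) (fun _ => ?_)
    · linarith
    · rw [g4]
      have hf0 : (0 : ℤ) ≤ P.f := Int.natCast_nonneg _
      have hm0 : (0 : ℤ) ≤ v.m := Int.natCast_nonneg _
      linarith [hpv (g8 hm), hn hm, p3 hm]
    · linarith
  | bC o _ _ _ _ _ _ j γ hh =>
    have hj := hβ j (Multiset.mem_cons_self j γ)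
    obtain ⟨v', g1, g2, g3, g4, g5, g6, g7, g8, g9, g10, g11⟩ := st_T hsn hM (by omega)
    obtain ⟨p1, _, p3, p4⟩ := g11 (r * a') 0 (o - j - r * a') (by omega)
    have hn := fun hm => g10 (v.c + P.K + 20) hm
    rw [T4_succ] at hps hpv
    refine A4_close (r := 0) (a := 0) g1 (by omega) (Nat.zero_le _) (by omega) (by omega) ?_
      (fun hm => ?_) (fun _ => ?_)
    · rw [Nat.zero_mul]
      linarith
    · rw [Nat.zero_mul, g4]
      have hf0 : (0 : ℤ) ≤ P.f := Int.natCast_nonneg _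
      have hm0 : (0 : ℤ) ≤ v.m := Int.natCast_nonneg _
      linarith [hpv (g8 hm), hn hm, p3 hm]
    · rw [Nat.zero_mul]
      linarith
  | bR o _ _ _ _ ν _ j γ hh =>
    have hj := hβ j (Multiset.mem_cons_self j γ)
    obtain ⟨v', g1, g2, g3, g4, g5, g6, g7, g8, g9, g10, g11⟩ := st_T hsn hM (by omega)
    obtain ⟨p1, _, p3, p4⟩ := g11 (r * a') (r * a') (o - j) (by omega)
    have hn := fun hm => g10 (v.c + P.K + 20) hm
    rw [T4_succ] at hps hpv
    refine A4_good g1 (by omega) (by omega) (hkb a' le_rfl) (by omega) (by omega) ?_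
      (fun hm => ?_) (fun _ => ?_)
    · linarith
    · rw [g4]
      have hf0 : (0 : ℤ) ≤ P.f := Int.natCast_nonneg _
      have hm0 : (0 : ℤ) ≤ v.m := Int.natCast_nonneg _
      linarith [hpv (g8 hm), hn hm, p3 hm]
    · linarith
  | f0 o _ _ _ _ _ _ => exact absurd ha1 (Nat.not_succ_le_zero 0)
  | fA o a _ _ _ _ _ _ =>
    have e : r * (a + 1) = r * a + r := by ring
    obtain ⟨v', g1, g2, g3, g4, g5, g6, g8, g9, g10, g11⟩ := st_F hsn hM (by omega)
    obtain ⟨p1, _, p3, p4⟩ := g11 (r * (a + 1)) (r * a) (o + 1) (by omega)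
    have hn := fun hm => g10 (v.c + P.K + 20) hm
    rw [T4_succ] at hps hpv
    refine A4_good g1 hν (by omega) (hkb a (Nat.le_succ a)) (by omega) (by omega) ?_
      (fun hm => ?_) (fun _ => ?_)
    · linarith
    · rw [g4]
      have hf0 : (0 : ℤ) ≤ P.f := Int.natCast_nonneg _
      have hm0 : (0 : ℤ) ≤ v.m := Int.natCast_nonneg _
      linarith [hpv (g8 hm), hn hm, p3 hm]
    · linarith
  | fC o _ _ _ _ _ _ _ hh =>
    obtain ⟨v', g1, g2, g3, g4, g5, g6, g8, g9, g10, g11⟩ := st_F hsn hM (by omega)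
    obtain ⟨p1, _, p3, p4⟩ := g11 (r * a') 0 (o + 1 - r * a') (by omega)
    have hn := fun hm => g10 (v.c + P.K + 20) hm
    rw [T4_succ] at hps hpv
    refine A4_close (r := 0) (a := 0) g1 (by omega) (Nat.zero_le _) (by omega) (by omega) ?_
      (fun hm => ?_) (fun _ => ?_)
    · rw [Nat.zero_mul]
      linarith
    · rw [Nat.zero_mul, g4]
      have hf0 : (0 : ℤ) ≤ P.f := Int.natCast_nonneg _
      have hm0 : (0 : ℤ) ≤ v.m := Int.natCast_nonneg _
      linarith [hpv (g8 hm), hn hm, p3 hm]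
    · rw [Nat.zero_mul]
      linarith
  | ws o a _ _ _ _ _ =>
    exact A4_ws h hsn hM hpp hps hpv hk hk1 hkr hwin hw hν
  | wl o a _ _ _ _ _ hh =>
    exact A4_ws h hsn hM hpp hps hpv hk hk1 hkr hwin hw hν
  | r4 _ _ _ _ _ _ _ _ hh =>
    have hIr : ((o' + 1 - r * a' : ℕ) : ℤ) = (o' : ℤ) + 1 - (r * a' : ℕ) := by
      rw [Nat.cast_sub hh]
      push_cast
      ring
    have ho0 : (0 : ℤ) ≤ o' := Int.natCast_nonneg _
    rw [A4_Psi] at hps
    rw [A4_Vee] at hpv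
    rw [A4_Pee] at hpp
    refine A4_close (r := 0) (a := 0) hsn (by omega) (Nat.zero_le _) (by omega) (by omega) ?_
      (fun hm => ?_) (fun _ => ?_)
    · rw [Nat.zero_mul, hIr]
      linarith
    · rw [Nat.zero_mul, hIr]
      linarith [hpv hm]
    · rw [Nat.zero_mul, hIr]
      linarith
  | r5f _ _ _ _ μ _ _ _ =>
    obtain ⟨g1, g2⟩ := st_5f hsn
    obtain ⟨p1, p2, p3⟩ := g2 (r * a')
    have ho0 : (0 : ℤ) ≤ o' := Int.natCast_nonneg _
    refine ⟨_, 0, Pays.refl _, Nat.zero_le _, Or.inl (Or.inr (Or.inr (Or.inr (Or.inl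
      ⟨{ v with E := v.E - 1 }, ?_⟩))))⟩
    exact
      { sn := g1
        M := by show μ + 1 ≤ v.E - 1; omega
        a := ha1
        r := hr1
        cb := rfl
        ν := hν
        kr := by show r + kc P.Q P.R0 r a' ≤ kap P.Q P.R0; omega
        w := hw
        win := by
          show (ν = 1 ∧ r * a' ≤ o' ∧ v.X = 0 ∧ v.c ≤ P.f + v.m + 2) ∨
            (r * a' + (v.E - 1) + r + kc P.Q P.R0 r a' + 10 ≤ o' ∧
              r * a' + v.c + kc P.Q P.R0 r a' + 10 ≤ o' ∧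
              v.X ≤ v.c + 1 ∧ v.c ≤ P.f + v.m + 3)
          omega
        ps := by
          show T4 P o' ≤ Psi P o' (r * a') { v with E := v.E - 1 } + al P.f v
          linarith
        pv := fun hm => by
          show T4 P o' + nd v (v.c + P.K + 20) ≤
            Vee P o' (r * a') { v with E := v.E - 1 } + al P.f v
          linarith [hpv hm]
        pp := fun _ => by
          show TP P o' v ≤ Pee P o' (r * a') { v with E := v.E - 1 }
          linarith }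
  | r5b _ _ _ _ _ _ _ j γ =>
    refine ⟨_, 0, Pays.refl _, Nat.zero_le _, Or.inl (Or.inr (Or.inr (Or.inr (Or.inl
      ⟨v, ?_⟩))))⟩
    exact
      { sn := st_5b hsn
        M := hM
        a := ha1
        r := hr1
        cb := rfl
        ν := hν
        kr := h.kr
        w := hw
        win := h.win
        ps := h.ps
        pv := h.pv
        pp := h.pp }
  | nil _ =>
    exact ⟨_, 0, Pays.refl _, Nat.zero_le _, Or.inl (Or.inr (Or.inr (Or.inr (Or.inl ⟨v, h⟩))))⟩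

end Pool.Agent.OCN.YC
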