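import Pool.Agent.Lib_helper92.OCN.YcMs

/-!
# MP_aeb124_co: number game, the attacks of a window start (ws, wl), answered by `one` payments

After such an attack the number of starts of the window has grown by one, the debt `r * a` has not
grown.
-/

set_option autoImplicit false

namespace Pool.Agent.OCN.YC

/-- a window start has attacked (short window): `one` payments. The old debt is `r * (a + 1)`, the
money is `a + ν`, at most `r` units of it are lost -/
theorem pays_ws (o a r u μ ν : ℕ) (β : Multiset ℕ) (hr : 1 ≤ r) :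
    ∃ a' c, a' ≤ a ∧ c ≤ a + ν ∧ (r + 1) * a = (r + 1) * a' + c ∧ (a' = 0 ∨ a + ν ≤ c + r) ∧
      (r + 1) * a' ≤ r * (a + 1) ∧ (a' = 0 ∨ (r + 1) * a' + ν ≤ r * (a + 1)) ∧
      Pays ⟨o, a, r + 1, u, μ, ν, 0, β⟩ ⟨o, a', r + 1, u, μ, ν, 0, β⟩ c := by
  obtain ⟨a', c, h1, h2, h3, h4, h5⟩ := pays_window o a (r + 1) u μ ν 0 (a + ν) β (by omega)
  have h6 : (r + 1) * a = r * a + a := by ring
  have h7 : r * (a + 1) = r * a + r := by ring
  refine ⟨a', c, h1, h2, h3, ?_, ?_, ?_, h5⟩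
  · rcases h4 with h4 | h4
    · exact Or.inl h4
    · exact Or.inr (by omega)
  · rcases h4 with h4 | h4
    · rw [h4, mul_zero]
      exact Nat.zero_le _
    · omega
  · rcases h4 with h4 | h4
    · exact Or.inl h4
    · exact Or.inr (by omega)

/-- a window start has attacked (short window): one `all` payment, the money `ν` is left -/
theorem pays_ws_all (o a r u μ ν cb : ℕ) (β : Multiset ℕ) (hr : 1 ≤ r) :
    Pays ⟨o, a, r + 1, u, μ, ν, cb, β⟩ ⟨o, a, r, u, μ, ν, cb, β⟩ a := by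
  obtain ⟨r', rfl⟩ : ∃ r', r = r' + 1 := ⟨r - 1, by omega⟩
  exact Pays.single (Pay.all o a r' u μ ν cb β)

/-- the window start has attacked (long window): `one` payments, the money is `a + ν - cb` -/
theorem pays_wl (o a u μ ν cb : ℕ) (β : Multiset ℕ) (hcb : cb ≤ a + ν) :
    ∃ a' c, a' ≤ a ∧ c ≤ a + ν - cb ∧ 2 * a = 2 * a' + c ∧ (a' = 0 ∨ a + ν ≤ c + cb + 1) ∧
      2 * a' ≤ a + cb + 1 ∧ (a' = 0 ∨ 2 * a' + ν ≤ a + cb + 1) ∧
      Pays ⟨o, a, 2, u, μ, ν, 0, β⟩ ⟨o, a', 2, u, μ, ν, 0, β⟩ c := by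
  obtain ⟨a', c, h1, h2, h3, h4, h5⟩ := pays_window o a 2 u μ ν 0 (a + ν - cb) β (by omega)
  refine ⟨a', c, h1, h2, h3, ?_, ?_, ?_, h5⟩
  · rcases h4 with h4 | h4
    · exact Or.inl h4
    · exact Or.inr (by omega)
  · rcases h4 with h4 | h4
    · omega
    · omega
  · rcases h4 with h4 | h4
    · exact Or.inl h4
    · exact Or.inr (by omega)

end Pool.Agent.OCN.YC
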